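import Mathlib
import Pool.Agent.Helper42.SOM.TameQ
import Pool.Agent.Helper84.T5.Crit
import Pool.Agent.Helper84.T5.Prop
import Pool.Agent.Helper84.T5.ExFlat
import Pool.Agent.Helper84.T5.Squares
import Pool.Agent.Helper84.T5.PS
import Pool.Agent.Helper84.T5K.Squares
import Pool.Agent.Helper91.KK.Fld

/-!
# Tame representations of dimension at most five and four primes of a number field

Let `p` be an odd prime number, let `K` be a number field and let `S` be a finite set of primes of `K`.
We consider continuous homomorphisms `ρ` from the absolute Galois group of `K` to `GL_n(A)`, which are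
unramified outside `S`, at most tamely ramified in `S`, and whose projective residual image is a
`p`-group.

Assume that the abelian extensions of degree `p` of `K`, which are tame in `S`, are given by four primes
`𝔮 i` of `S` whose norms `q i` are congruent to `1` modulo `p`, and characters `χ i` of order `p` which
are ramified only at `𝔮 i`, up to wild ramification and primes outside `S` (`LinkingData`). The linking
numbers are the values `l i j` of the `χ j` at the Frobenius elements of the `𝔮 i` for `i ≠ j`.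

Suppose that a certain polynomial in the linking numbers, the discriminant `disc`, is not a square
modulo `p`: this is so for about half of all possible linking numbers. Equivalently, an alternating form
of rank two over the prime field never satisfies the four relations given by the linking numbers. We
show that `ρ` has finite image in the following cases:

* `n ≤ 5` and `A` is a complete discrete valuation ring, whose residue field has `p ^ f` elements with
  `f` odd, or a ring of power series over such a ring, or another complete Noetherian local ring with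
  sufficiently many homomorphisms to such discrete valuation rings (`OddPoints`), and inertia at the
  `𝔮 i` acts unipotently (which is automatic in characteristic `p`, and for small ramification of the
  discrete valuation rings, for instance for the `p`-adic integers if `n ≤ p - 2`);
* `A` is any complete Noetherian local ring with finite residue field of characteristic `p`, `A` has
  characteristic `p` or inertia at the `𝔮 i` acts unipotently, and `(ρ τ - 1) ^ 2 = 0` for all elements
  `τ` of the inertia groups above two of the four primes.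

If `A` does not have characteristic `p`, we need `n < p` and a condition on the numbers `q i - 1`
(`Valuations`): their `p`-adic valuations are equal and a certain polynomial does not vanish modulo `p`,
or one of the valuations is smaller than the others.

The last condition of `LinkingData` is true if `p` does not divide the class number of `K` and all
primes of `S` not above `p` with norm congruent to `1` modulo `p` are among the `𝔮 i`
(`complete_of_classNumber`). For the rational numbers the `𝔮 i` are given by prime numbers `q i`, and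
the linking numbers are the discrete logarithms of `q i` modulo `q j` (`linkingData_rat`, `rational`).
More generally, let the degree and the class number of `K` be prime to `p`, and let each of these `q i`
have only one prime above it in `K`, of degree `f i`. Then there are linking data for `K` with the
linking numbers `f i * l i j`, and their discriminant is a square if and only if the one of the `l i j`
is (`linkingData_field`, `disc_mul`). In this case the Galois group of the maximal pro-`p`-extension of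
`K` unramified outside `S` is infinite by the theorem of Golod and Shafarevich.

Examples over the rational numbers: dimension at most `5`, `p = 7` and the prime numbers
`29, 197, 491, 883` (`seven`) or `43, 71, 113, 127` (`seven_flat`); dimension at most `4`, `p = 5` and
`181, 101, 151, 251` (`five`) or `11, 41, 61, 71` (`five_flat`, in characteristic `5` also dimension
`5`); dimension at most `5`, characteristic `3` and `7, 13, 31, 61` (`three_char`).

Idea of the proof. One may assume that `A` is a discrete valuation ring and that `ρ = 1 + ϖ ^ a φ` modulo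
`ϖ ^ (a + 1)`, where the values of `φ` generate an algebra which is not nilpotent; the residue field can
be kept fixed. The values of `φ` are the combinations of four nilpotent matrices `N i`, which satisfy
the four relations `∑ j ≠ i, l i j • [N j, N i] = 0` if `ϖ ^ a` is less divisible than the `q i - 1`.
Since the discriminant is not a square, the Lie algebra with these generators and relations becomes the
product of two free Lie algebras of rank two over the quadratic extension of the prime field, and these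
are interchanged by the Frobenius automorphism. So an irreducible representation of dimension at most
`5` over a field of odd degree would have dimension `4` and be the tensor product of a two-dimensional
representation and its conjugate, or be of dimension at most `4` and come from a two-dimensional
representation by restriction of scalars; then four different points of a projective line would be
mapped to a conic.
-/

set_option autoImplicit false

open NumberField IsLocalRing Matrix

open scoped Pointwise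

namespace Pool.Agent.Results.MP_924d78_nt.DimensionFive

/-- The absolute Galois group of the field `K`. -/
abbrev G (K : Type) [Field K] : Type := AlgebraicClosure K ≃ₐ[K] AlgebraicClosure K

/-- The homomorphism `ρ` is unramified outside `S` and at most tamely ramified in `S`: for every
number field `F` containing `K` and embedded over `K` into the fixed field of the kernel of `ρ`,
and every maximal ideal `P` of the ring of integers of `F` above a prime `q` of `K`, the ramification
index `e` of `P` over `q` is `1` if `q ∉ S` and is prime to the residue characteristic if `q ∈ S`. -/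
def TameAt (K : Type) [Field K] [NumberField K] (S : Set (Ideal (𝓞 K))) {H : Type} [Group H]
    (ρ : G K →* H) : Prop :=
  ∀ (F : Type) [Field F] [NumberField F] [Algebra K F] (ι : F →ₐ[K] AlgebraicClosure K),
    ι.fieldRange ≤ IntermediateField.fixedField ρ.ker →
    ∀ (P : Ideal (𝓞 F)), P.IsMaximal →
    ∀ (q : Ideal (𝓞 K)), q = P.comap (algebraMap (𝓞 K) (𝓞 F)) →
    ∀ e : ℕ, q.map (algebraMap (𝓞 K) (𝓞 F)) ≤ P ^ e →
      ¬ (q.map (algebraMap (𝓞 K) (𝓞 F)) ≤ P ^ (e + 1)) →
      (q ∉ S → e = 1) ∧ (q ∈ S → ¬ (ringChar (𝓞 K ⧸ q) ∣ e))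

/-- The residual representation: the reduction of `ρ` modulo the maximal ideal. -/
noncomputable def residual {Γ A : Type} [Group Γ] [CommRing A] [IsLocalRing A] {n : ℕ}
    (ρ : Γ →* GL (Fin n) A) : Γ →* GL (Fin n) (ResidueField A) :=
  (Matrix.GeneralLinearGroup.map (residue A)).comp ρ

/-- The projective image of `τ` is a `p`-group: for every `g` some power of `τ g` with exponent a
power of `p` is scalar. -/
def ProjectivelyP (p : ℕ) {Γ k : Type} [Group Γ] [Field k] {n : ℕ} (τ : Γ →* GL (Fin n) k) : Prop :=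
  ∀ g, ∃ (j : ℕ) (a : k), ((τ g ^ p ^ j : GL (Fin n) k) : Matrix (Fin n) (Fin n) k) = a • 1

/-- The character `ψ` is unramified outside `S`, above `p` and at the primes in `R`: it is trivial on
the inertia groups of all maximal ideals `Q` of the ring of all algebraic integers which lie above a
prime outside `S`, above `p` or above a prime in `R`. -/
def UnramifiedAt (p : ℕ) {K : Type} [Field K] [NumberField K] (S R : Set (Ideal (𝓞 K)))
    (ψ : G K →* Multiplicative (ZMod p)) : Prop :=
  ∀ Q : Ideal (𝓞 (AlgebraicClosure K)), Q.IsMaximal →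
    (Q.comap (algebraMap (𝓞 K) (𝓞 (AlgebraicClosure K))) ∉ S ∨ (p : 𝓞 (AlgebraicClosure K)) ∈ Q ∨
      Q.comap (algebraMap (𝓞 K) (𝓞 (AlgebraicClosure K))) ∈ R) → ∀ γ ∈ Q.inertia (G K), ψ γ = 1

/-- The linking data: the `𝔮 i` are four primes of `K` whose residue fields have `q i` elements, and
`q i` is congruent to `1` modulo `p`. The `χ i` are nontrivial continuous characters with values in the
group of order `p`, which are unramified outside `S`, above `p` and at the primes `𝔮 j` for `j ≠ i`. If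
`σ` is a Frobenius element of the prime `𝔮 i`, then `χ j σ` is the class of `l i j` for `j ≠ i`.
A continuous character with values in the group of order `p`, which is unramified outside `S`, above
`p` and at all `𝔮 i`, is trivial. -/
structure LinkingData (p : ℕ) (K : Type) [Field K] [NumberField K] (S : Set (Ideal (𝓞 K)))
    (𝔮 : Fin 4 → Ideal (𝓞 K)) (χ : Fin 4 → G K →* Multiplicative (ZMod p)) (q : Fin 4 → ℕ)
    (l : Fin 4 → Fin 4 → ℕ) : Prop where
  maximal : ∀ i, (𝔮 i).IsMaximal
  card : ∀ i, Nat.card (𝓞 K ⧸ 𝔮 i) = q i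
  dvd : ∀ i, p ∣ q i - 1
  continuous : ∀ i, IsOpen ((χ i).ker : Set (G K))
  ne_one : ∀ i, χ i ≠ 1
  unramified : ∀ i, UnramifiedAt p S {I | ∃ j, j ≠ i ∧ I = 𝔮 j} (χ i)
  frobenius : ∀ i j, i ≠ j → ∀ Q : Ideal (𝓞 (AlgebraicClosure K)), Q.IsMaximal →
    Q.comap (algebraMap (𝓞 K) (𝓞 (AlgebraicClosure K))) = 𝔮 i → ∀ σ : G K,
    (∀ x : 𝓞 (AlgebraicClosure K), σ • x - x ^ q i ∈ Q) →
    χ j σ = Multiplicative.ofAdd ((l i j : ℕ) : ZMod p)
  complete : ∀ ψ : G K →* Multiplicative (ZMod p), IsOpen (ψ.ker : Set (G K)) →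
    UnramifiedAt p S (Set.range 𝔮) ψ → ψ = 1

/-- Inertia at the primes `𝔮 i` acts unipotently: if an automorphism `τ` acts trivially on the ring of
all algebraic integers modulo a maximal ideal above one of the `𝔮 i`, then `ρ τ - 1` is nilpotent. -/
def Unipotent {K : Type} [Field K] [NumberField K] (𝔮 : Fin 4 → Ideal (𝓞 K)) {A : Type}
    [CommRing A] {n : ℕ} (ρ : G K →* GL (Fin n) A) : Prop :=
  ∀ Q : Ideal (𝓞 (AlgebraicClosure K)), Q.IsMaximal →
    Q.comap (algebraMap (𝓞 K) (𝓞 (AlgebraicClosure K))) ∈ Set.range 𝔮 → ∀ τ : G K,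
    (∀ x : 𝓞 (AlgebraicClosure K), τ • x - x ∈ Q) →
    IsNilpotent ((ρ τ : Matrix (Fin n) (Fin n) A) - 1)

/-- Inertia acts with square zero at the prime `P` of `K`: if an automorphism `τ` acts trivially on the
ring of all algebraic integers modulo a maximal ideal above `P`, then `(ρ τ - 1) ^ 2 = 0`. -/
def SquareZeroAt {K : Type} [Field K] [NumberField K] (P : Ideal (𝓞 K)) {A : Type} [CommRing A]
    {n : ℕ} (ρ : G K →* GL (Fin n) A) : Prop :=
  ∀ Q : Ideal (𝓞 (AlgebraicClosure K)), Q.IsMaximal →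
    Q.comap (algebraMap (𝓞 K) (𝓞 (AlgebraicClosure K))) = P → ∀ τ : G K,
    (∀ x : 𝓞 (AlgebraicClosure K), τ • x - x ∈ Q) →
    ((ρ τ : Matrix (Fin n) (Fin n) A) - 1) ^ 2 = 0

/-- The discriminant `a² + b² + c² - 2 (ab + bc + ca)` of the linking numbers, for three products `a`,
`b`, `c` of two determinants. -/
def disc {R : Type} [CommRing R] (l : Fin 4 → Fin 4 → R) : R :=
  let a := (l 0 2 * l 1 3 - l 0 3 * l 1 2) * (l 2 0 * l 3 1 - l 2 1 * l 3 0)
  let b := (l 0 1 * l 2 3 - l 0 3 * l 2 1) * (l 1 0 * l 3 2 - l 1 2 * l 3 0)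
  let c := (l 0 1 * l 3 2 - l 0 2 * l 3 1) * (l 1 0 * l 2 3 - l 1 3 * l 2 0)
  a ^ 2 + b ^ 2 + c ^ 2 - 2 * (a * b + b * c + c * a)

/-- Condition on the `p`-adic valuations: (1) `q i - 1 = p ^ v * c i` with `c i` prime to `p`, for the
same `v`, and the value of the polynomial `D` at the `c i` (on the diagonal) and `l i j` is not divisible
by `p`; or (2) the valuation of `q 0 - 1` is smaller than the valuations of `q 1 - 1`, `q 2 - 1`,
`q 3 - 1`, and these are not all equal or `l 1 3 * l 2 1 * l 3 2 + l 1 2 * l 2 3 * l 3 1` is not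
divisible by `p`. -/
def Valuations (p : ℕ) (q : Fin 4 → ℕ) (l : Fin 4 → Fin 4 → ℕ)
    (D : MvPolynomial (Fin 4 × Fin 4) ℤ) : Prop :=
  (∃ (v : ℕ) (c : Fin 4 → ℕ), (∀ i, q i - 1 = p ^ v * c i) ∧ (∀ i, ¬ p ∣ c i) ∧
    ¬ (p : ℤ) ∣ MvPolynomial.eval (fun s => if s.1 = s.2 then (c s.1 : ℤ) else (l s.1 s.2 : ℤ)) D) ∨
  ((∀ i, i ≠ 0 → padicValNat p (q 0 - 1) < padicValNat p (q i - 1)) ∧
    ((∃ i j, i ≠ 0 ∧ j ≠ 0 ∧ padicValNat p (q i - 1) ≠ padicValNat p (q j - 1)) ∨
      ¬ p ∣ l 1 3 * l 2 1 * l 3 2 + l 1 2 * l 2 3 * l 3 1))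

/-- Let `I` be the zero ideal of `A` or the ideal generated by `p`. Each nonunit `a` of `A` which is not
nilpotent modulo `I` is not in the kernel of some homomorphism `j` from `A` to a complete discrete
valuation ring `O`, which vanishes on `I`, such that the residue field of `O` has `p ^ f` elements for an
odd number `f`, and `p = 0` in `O`, or `u` holds, or `e * n + 1 < p` for a number `e` such that `p` is
not in the power of the maximal ideal with exponent `e + 1`. -/
def OddPoints (p n : ℕ) (u : Prop) (A : Type) [CommRing A] : Prop :=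
  ∀ I : Ideal A, (I = ⊥ ∨ I = Ideal.span {(p : A)}) → ∀ a : A, ¬ IsUnit a → (∀ m : ℕ, a ^ m ∉ I) →
    ∃ (O : Type) (_ : CommRing O) (_ : IsDomain O) (_ : IsDiscreteValuationRing O) (j : A →+* O)
      (f : ℕ), IsAdicComplete (maximalIdeal O) O ∧ Odd f ∧ Nat.card (ResidueField O) = p ^ f ∧
        (∀ x ∈ I, j x = 0) ∧ j a ≠ 0 ∧
        ((p : O) = 0 ∨ u ∨ ∃ e, (p : O) ∉ maximalIdeal O ^ (e + 1) ∧ e * n + 1 < p)

/-- the polynomial -/
private theorem exists_D (N : ℕ) : ∃ D : MvPolynomial (Fin 4 × Fin 4) ℤ, D ≠ 0 ∧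
    ∀ (p : ℕ), p.Prime → ∀ (q : Fin 4 → ℕ) (l : Fin 4 → Fin 4 → ℕ), Valuations p q l D →
      ∀ n ≤ N, n < p → Helper84.T5.Spread p q l ∨ Helper84.T5.Flat p n q l := by
  choose D hD h using Helper91.FM.exists_poly_linRigid
  refine ⟨∏ m ∈ Finset.range (N + 1), D m, Finset.prod_ne_zero_iff.2 fun m _ => hD m, ?_⟩
  intro p hp q l hV n hnN hnp
  rcases hV with ⟨v, c, hv, hc, hne⟩ | h2
  · right
    refine ⟨v, c, hv, hc, fun m hm => h m p hp (by omega) l c hc fun hdvd => hne ?_⟩
    refine hdvd.trans ?_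
    rw [map_prod]
    exact Finset.dvd_prod_of_mem (fun m => MvPolynomial.eval _ (D m))
      (Finset.mem_range.2 (by omega))
  · exact Or.inl h2

private theorem LinkingData.toLD {p : ℕ} {K : Type} [Field K] [NumberField K]
    {S : Set (Ideal (𝓞 K))} {𝔮 : Fin 4 → Ideal (𝓞 K)}
    {χ : Fin 4 → G K →* Multiplicative (ZMod p)} {q : Fin 4 → ℕ} {l : Fin 4 → Fin 4 → ℕ}
    (h : LinkingData p K S 𝔮 χ q l) : Helper91.KK.LD K (AlgebraicClosure K) p S 𝔮 χ q l :=
  ⟨h.maximal, h.card, h.dvd, h.continuous, h.ne_one, h.unramified, h.frobenius, h.complete⟩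

/-- Tame representations `ρ` of dimension `n` over `A`, whose projective residual image is a `p`-group,
for a number field and four primes whose discriminant is not a square modulo `p`, have finite image if
`n ≤ 5` and `A` has odd points, or if inertia acts with square zero at two of the four primes, and
`p = 0` in `A` or inertia at the four primes acts unipotently. If `p ≠ 0` in `A`, it is assumed that
`n ≤ N`, `n < p` and that the condition on the valuations holds; the polynomial `D` only depends on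
`N`. -/
theorem result (N : ℕ) : ∃ D : MvPolynomial (Fin 4 × Fin 4) ℤ, D ≠ 0 ∧
    ∀ (p : ℕ) [Fact p.Prime], p ≠ 2 → ∀ (K : Type) [Field K] [NumberField K]
      (S : Set (Ideal (𝓞 K))), S.Finite → ∀ (𝔮 : Fin 4 → Ideal (𝓞 K))
      (χ : Fin 4 → G K →* Multiplicative (ZMod p)) (q : Fin 4 → ℕ) (l : Fin 4 → Fin 4 → ℕ),
      LinkingData p K S 𝔮 χ q l → ¬ IsSquare (disc fun i j => (l i j : ZMod p)) →
      ∀ (A : Type) [CommRing A] [IsLocalRing A] [IsNoetherianRing A] [TopologicalSpace A]
      [CharP (ResidueField A) p] [Finite (ResidueField A)] [IsAdicComplete (maximalIdeal A) A],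
      IsAdic (maximalIdeal A) → ∀ (n : ℕ) (ρ : G K →* GL (Fin n) A), Continuous ρ →
      TameAt K S ρ → ProjectivelyP p (residual ρ) →
      ((p : A) = 0 ∨ (n ≤ N ∧ n < p ∧ Valuations p q l D)) →
      ((n ≤ 5 ∧ OddPoints p n (Unipotent 𝔮 ρ) A) ∨
        (((p : A) = 0 ∨ Unipotent 𝔮 ρ) ∧
          ∃ a b, a ≠ b ∧ SquareZeroAt (𝔮 a) ρ ∧ SquareZeroAt (𝔮 b) ρ)) →
      (Set.range ρ).Finite := by
  obtain ⟨D, hD, hgen⟩ := exists_D N
  refine ⟨D, hD, ?_⟩
  intro p _ hp K _ _ S hS 𝔮 χ q l hL hdisc A _ _ _ _ _ _ _ hA n ρ hρ hTame hres hval h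
  have hts : Helper77.SO.TameSub K S ρ.ker := hTame
  have hAn : Helper84.T5.Aniso (fun i j => (l i j : ZMod p)) := Helper84.T5.aniso_of_disc hdisc
  have hchar : (p : A) = 0 ∨ (n < p ∧ (Helper84.T5.Spread p q l ∨ Helper84.T5.Flat p n q l)) :=
    hval.imp id fun h => ⟨h.2.1, hgen p Fact.out q l h.2.2 n h.1 h.2.1⟩
  rcases h with ⟨h5, hpts⟩ | ⟨hU, a, b, hab, ha, hb⟩
  · exact Helper84.T5K.finite_points p A hp hL.toLD hAn hS hA h5 ρ hρ hts hres hchar hpts
  · refine Helper84.T5K.finite_squares p hp A hL.toLD hAn hS hA ρ hρ hts hres ?_ ⟨a, b, hab, ?_⟩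
    · rcases hchar with h | h
      · exact Or.inl h
      · rcases hU with h' | h'
        · exact Or.inl h'
        · exact Or.inr ⟨h, h'⟩
    · rintro i (rfl | rfl)
      · exact ha
      · exact hb

/-- At least about half of the possible linking numbers and quotients satisfy the conditions of the
theorem. -/
theorem proportion {D : MvPolynomial (Fin 4 × Fin 4) ℤ} (hD : D ≠ 0) : ∃ C : ℕ,
    ∀ (p : ℕ) [Fact p.Prime], p ≠ 2 →
      p ^ 16 ≤ 2 * (Finset.univ.filter (fun f : Fin 4 × Fin 4 → ZMod p =>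
        ¬ IsSquare (disc fun i j => f (i, j)) ∧ MvPolynomial.aeval f D ≠ 0 ∧
          ∀ i, f (i, i) ≠ 0)).card + C * p ^ 15 :=
  Helper84.T5.proportion hD

/-- Discrete valuation rings. -/
theorem oddPoints_dvr {p n : ℕ} {u : Prop} (O : Type) [CommRing O] [IsDomain O]
    [IsDiscreteValuationRing O] [IsAdicComplete (maximalIdeal O) O] {f : ℕ} (hf : Odd f)
    (hcard : Nat.card (ResidueField O) = p ^ f)
    (hp : (p : O) = 0 ∨ u ∨ ∃ e, (p : O) ∉ maximalIdeal O ^ (e + 1) ∧ e * n + 1 < p) :
    OddPoints p n u O :=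
  Helper84.T5.oddPoints_dvr O hf hcard hp

/-- Power series rings over discrete valuation rings. -/
theorem oddPoints_power {p n : ℕ} [Fact p.Prime] {u : Prop} (O : Type) [CommRing O] [IsDomain O]
    [IsDiscreteValuationRing O] [IsAdicComplete (maximalIdeal O) O] {f : ℕ} (hf : Odd f)
    (hcard : Nat.card (ResidueField O) = p ^ f)
    (hp : (p : O) = 0 ∨ u ∨ ∃ e, (p : O) ∉ maximalIdeal O ^ (e + 1) ∧ e * n + 1 < p) (d : ℕ) :
    OddPoints p n u (MvPowerSeries (Fin d) O) :=
  Helper84.T5.oddPoints_power O hf hcard hp d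

/-- The last condition for linking data is true if `p` does not divide the class number of `K` and the
primes of `S` not above `p` with norm congruent to one modulo `p` are among the `𝔮 i`. -/
theorem complete_of_classNumber {p : ℕ} [Fact p.Prime] (hp : p ≠ 2) {K : Type} [Field K]
    [NumberField K] (hcl : ¬ p ∣ classNumber K) {S : Set (Ideal (𝓞 K))}
    (𝔮 : Fin 4 → Ideal (𝓞 K))
    (hS : ∀ P ∈ S, P.IsMaximal → (p : 𝓞 K) ∉ P → p ∣ Nat.card (𝓞 K ⧸ P) - 1 → ∃ i, 𝔮 i = P)
    (ψ : G K →* Multiplicative (ZMod p)) (hψ : IsOpen (ψ.ker : Set (G K)))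
    (hun : UnramifiedAt p S (Set.range 𝔮) ψ) : ψ = 1 :=
  Helper91.KK.gen_of_classNumber p hp hcl 𝔮 hS ψ hψ hun

/-- A tame homomorphism is tame for larger sets of primes. -/
theorem TameAt.mono {K : Type} [Field K] [NumberField K] {S S' : Set (Ideal (𝓞 K))} (hS : S ⊆ S')
    {H : Type} [Group H] {ρ : G K →* H} (h : TameAt K S ρ) : TameAt K S' ρ :=
  Helper91.KK.tameSub_mono hS h

/-- The `q i` are four different prime numbers congruent to `1` modulo `p` with primitive roots `g i`,
and `q i` is congruent to `g j ^ l i j` modulo `q j` for `i ≠ j`. -/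
structure Linking (p : ℕ) (q g : Fin 4 → ℕ) (l : Fin 4 → Fin 4 → ℕ) : Prop where
  prime : ∀ i, (q i).Prime
  injective : Function.Injective q
  dvd : ∀ i, p ∣ q i - 1
  root : ∀ i, orderOf (g i : ZMod (q i)) = q i - 1
  log : ∀ i j, i ≠ j → (q i : ZMod (q j)) = (g j : ZMod (q j)) ^ l i j

private theorem Linking.toData {p : ℕ} {q g : Fin 4 → ℕ} {l : Fin 4 → Fin 4 → ℕ}
    (hq : Linking p q g l) : Helper42.SOM.LinkData p q g l :=
  ⟨hq.prime, hq.injective, hq.dvd, hq.root, hq.log⟩

/-- Linking data for number fields `K` whose degree and class number are not divisible by `p`, such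
that there is only one prime `𝔮 i` above `q i`, of degree `f i`. Then the linking numbers are
`f i * l i j`. -/
theorem linkingData_field {p : ℕ} [Fact p.Prime] (hp : p ≠ 2) {q g : Fin 4 → ℕ}
    {l : Fin 4 → Fin 4 → ℕ} (hq : Linking p q g l) {K : Type} [Field K] [NumberField K]
    (hdeg : ¬ p ∣ Module.finrank ℚ K) (hcl : ¬ p ∣ classNumber K) {S : Set (Ideal (𝓞 K))}
    {𝔮 : Fin 4 → Ideal (𝓞 K)} {f : Fin 4 → ℕ} (hmax : ∀ i, (𝔮 i).IsMaximal)
    (hcard : ∀ i, Nat.card (𝓞 K ⧸ 𝔮 i) = q i ^ f i)
    (huniq : ∀ i (P : Ideal (𝓞 K)), P.IsMaximal → (q i : 𝓞 K) ∈ P → P = 𝔮 i)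
    (hS : ∀ P ∈ S, P.IsMaximal → (p : 𝓞 K) ∉ P → p ∣ Nat.card (𝓞 K ⧸ P) - 1 → ∃ i, 𝔮 i = P)
    (hqS : ∀ i, 𝔮 i ∈ S) :
    ∃ χ : Fin 4 → G K →* Multiplicative (ZMod p),
      LinkingData p K S 𝔮 χ (fun i => q i ^ f i) (fun i j => f i * l i j) := by
  obtain ⟨χ, h⟩ := Helper91.KK.ld_field (Ω := AlgebraicClosure K) p hp hq.toData hdeg hcl hmax hcard
    huniq hS hqS
  exact ⟨χ, ⟨h.max, h.card, h.dvd, h.cont, h.ne, h.out, h.frob, h.gen⟩⟩

/-- The discriminant of the linking numbers `f i * l i j`. -/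
theorem disc_mul {R : Type} [CommRing R] (f : Fin 4 → R) (l : Fin 4 → Fin 4 → R) :
    disc (fun i j => f i * l i j) = (f 0 * f 1 * f 2 * f 3) ^ 2 * disc l := by
  simp only [disc]
  ring

/-- The homomorphism `ρ` is unramified outside `T` and at most tamely ramified in `T`: let `F` be a
number field, embedded into the fixed field of the kernel of `ρ`, and let `P` be a maximal ideal of
its ring of integers, which contains the prime number `r`. Then the ramification index `e` of `P`
over `r` is `1` if `r ∉ T` and is not divisible by `r` if `r ∈ T`. -/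
def Tame (T : Finset ℕ) {H : Type} [Group H] (ρ : G ℚ →* H) : Prop :=
  ∀ (F : Type) [Field F] [NumberField F] (ι : F →+* AlgebraicClosure ℚ),
    (∀ g, ρ g = 1 → ∀ x, g (ι x) = ι x) → ∀ (P : Ideal (𝓞 F)), P.IsMaximal →
    ∀ (r e : ℕ), r.Prime → (r : 𝓞 F) ∈ P → (r : 𝓞 F) ∈ P ^ e → (r : 𝓞 F) ∉ P ^ (e + 1) →
      (r ∉ T → e = 1) ∧ (r ∈ T → ¬ r ∣ e)

/-- The primes of the rational numbers above the numbers in `T`. -/
def Above (T : Finset ℕ) : Set (Ideal (𝓞 ℚ)) := {P | P.IsMaximal ∧ ∃ t ∈ T, (t : 𝓞 ℚ) ∈ P}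

private theorem galois (K : Type) [Field K] [NumberField K] : IsGalois K (AlgebraicClosure K) :=
  inferInstance

/-- Linking data for the rational numbers. -/
theorem linkingData_rat {p : ℕ} [Fact p.Prime] (hp : p ≠ 2) {q g : Fin 4 → ℕ}
    {l : Fin 4 → Fin 4 → ℕ} (hq : Linking p q g l) {T : Finset ℕ} (hT : ∀ t ∈ T, t.Prime)
    (hTq : ∀ t ∈ T, p ∣ t - 1 → ∃ i, q i = t) (hqT : ∀ i, q i ∈ T) :
    ∃ (𝔮 : Fin 4 → Ideal (𝓞 ℚ)) (χ : Fin 4 → G ℚ →* Multiplicative (ZMod p)),
      LinkingData p ℚ (Above T) 𝔮 χ q l := by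
  obtain ⟨𝔮, χ, h⟩ := @Helper91.KK.ld_rat (AlgebraicClosure ℚ) _ (AlgebraicClosure.instAlgebra ℚ)
    (galois ℚ) _ p _ hp _ _ _ _ hq.toData T hT hTq hqT
  exact ⟨𝔮, χ, ⟨h.max, h.card, h.dvd, h.cont, h.ne, h.out, h.frob, h.gen⟩⟩

/-- Inertia acts unipotently, for the rational numbers: if an automorphism `τ` acts trivially on the
ring of all algebraic integers modulo a maximal ideal, then `ρ τ - 1` is nilpotent. -/
def UnipotentQ {A : Type} [CommRing A] {n : ℕ} (ρ : G ℚ →* GL (Fin n) A) : Prop :=
  ∀ Q : Ideal (𝓞 (AlgebraicClosure ℚ)), Q.IsMaximal → ∀ τ : G ℚ,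
    (∀ x : 𝓞 (AlgebraicClosure ℚ), τ • x - x ∈ Q) →
    IsNilpotent ((ρ τ : Matrix (Fin n) (Fin n) A) - 1)

/-- Inertia acts with square zero at the prime number `r`: if an automorphism `τ` acts trivially on the
ring of all algebraic integers modulo a maximal ideal which contains `r`, then `(ρ τ - 1) ^ 2 = 0`. -/
def SquareZeroAtQ {A : Type} [CommRing A] {n : ℕ} (r : ℕ) (ρ : G ℚ →* GL (Fin n) A) : Prop :=
  ∀ Q : Ideal (𝓞 (AlgebraicClosure ℚ)), Q.IsMaximal → (r : 𝓞 (AlgebraicClosure ℚ)) ∈ Q →
    ∀ τ : G ℚ, (∀ x : 𝓞 (AlgebraicClosure ℚ), τ • x - x ∈ Q) →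
    ((ρ τ : Matrix (Fin n) (Fin n) A) - 1) ^ 2 = 0

/-- dimension at most five -/
private theorem points {p : ℕ} [Fact p.Prime] (hp : p ≠ 2) {q g : Fin 4 → ℕ} {l : Fin 4 → Fin 4 → ℕ}
    (hL : Helper42.SOM.LinkData p q g l) (hdisc : ¬ IsSquare (Helper84.T5.disc fun i j => (l i j : ZMod p)))
    {T : Finset ℕ} (hT : ∀ t ∈ T, t.Prime) (hTq : ∀ t ∈ T, p ∣ t - 1 → ∃ i, q i = t)
    {A : Type} [CommRing A] [IsLocalRing A] [IsNoetherianRing A] [TopologicalSpace A]
    [CharP (ResidueField A) p] [Finite (ResidueField A)] [IsAdicComplete (maximalIdeal A) A]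
    (hA : IsAdic (maximalIdeal A)) {n : ℕ} (hn : n ≤ 5) (ρ : G ℚ →* GL (Fin n) A) (hρ : Continuous ρ)
    (hTame : Tame T ρ) (hres : ProjectivelyP p (residual ρ))
    (hchar : (p : A) = 0 ∨ (n < p ∧ (Helper84.T5.Spread p q l ∨ Helper84.T5.Flat p n q l)))
    (hpts : OddPoints p n (UnipotentQ ρ) A) : (Set.range ρ).Finite :=
  Helper84.T5.finite_points p A hp hL (Helper84.T5.aniso_of_disc hdisc) hT hTq hA hn ρ hρ
    (Helper42.SOM.tameSub_rat (fun F _ _ ι' hι' => hTame F ι' hι') hT) hres hchar hpts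

/-- The theorem for the rational numbers: let `q i` be four prime numbers congruent to one modulo `p`,
with linking numbers `l i j`, and let `T` be a finite set of prime numbers, such that those congruent to
one modulo `p` are among the `q i`. -/
theorem rational (N : ℕ) : ∃ D : MvPolynomial (Fin 4 × Fin 4) ℤ, D ≠ 0 ∧
    ∀ (p : ℕ) [Fact p.Prime], p ≠ 2 → ∀ (q g : Fin 4 → ℕ) (l : Fin 4 → Fin 4 → ℕ),
      Linking p q g l → ¬ IsSquare (disc fun i j => (l i j : ZMod p)) →
      ∀ (T : Finset ℕ), (∀ t ∈ T, t.Prime) → (∀ t ∈ T, p ∣ t - 1 → ∃ i, q i = t) →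
      ∀ (A : Type) [CommRing A] [IsLocalRing A] [IsNoetherianRing A] [TopologicalSpace A]
      [CharP (ResidueField A) p] [Finite (ResidueField A)] [IsAdicComplete (maximalIdeal A) A],
      IsAdic (maximalIdeal A) → ∀ (n : ℕ) (ρ : G ℚ →* GL (Fin n) A), Continuous ρ →
      Tame T ρ → ProjectivelyP p (residual ρ) →
      ((p : A) = 0 ∨ (n ≤ N ∧ n < p ∧ Valuations p q l D)) →
      ((n ≤ 5 ∧ OddPoints p n (UnipotentQ ρ) A) ∨
        (((p : A) = 0 ∨ UnipotentQ ρ) ∧
          ∃ a b, a ≠ b ∧ SquareZeroAtQ (q a) ρ ∧ SquareZeroAtQ (q b) ρ)) →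
      (Set.range ρ).Finite := by
  obtain ⟨D, hD, hgen⟩ := exists_D N
  refine ⟨D, hD, ?_⟩
  intro p _ hp q g l hq hdisc T hT hTq A _ _ _ _ _ _ _ hA n ρ hρ hTame hres hval h
  have hL : Helper42.SOM.LinkData p q g l := hq.toData
  have hts : Helper77.SO.TameSub ℚ (Helper27.TE.above T) ρ.ker :=
    Helper42.SOM.tameSub_rat (fun F _ _ ι' hι' => hTame F ι' hι') hT
  have hAn : Helper84.T5.Aniso (fun i j => (l i j : ZMod p)) := Helper84.T5.aniso_of_disc hdisc
  have hchar : (p : A) = 0 ∨ (n < p ∧ (Helper84.T5.Spread p q l ∨ Helper84.T5.Flat p n q l)) :=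
    hval.imp id fun h => ⟨h.2.1, hgen p Fact.out q l h.2.2 n h.1 h.2.1⟩
  rcases h with ⟨h5, hpts⟩ | ⟨hU, a, b, hab, ha, hb⟩
  · exact points hp hL hdisc hT hTq hA h5 ρ hρ hTame hres hchar hpts
  · refine Helper84.T5.finite_squares p hp A hL hAn hT hTq hA ρ hρ hts hres ?_ ⟨a, b, hab, ?_⟩
    · rcases hchar with h | h
      · exact Or.inl h
      · rcases hU with h' | h'
        · exact Or.inl h'
        · exact Or.inr ⟨h, h'⟩
    · rintro i (rfl | rfl)
      · exact ha
      · exact hb

/-- `p = 7`, dimension at most `5`, coefficient rings of residue characteristic `7` with odd points, and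
sets of prime numbers whose members congruent to `1` modulo `7` are among `29, 197, 491, 883`. -/
theorem seven (T : Finset ℕ) (hT : ∀ r ∈ T, r.Prime)
    (hT' : ∀ r ∈ T, r % 7 = 1 → r = 29 ∨ r = 197 ∨ r = 491 ∨ r = 883)
    (A : Type) [CommRing A] [IsLocalRing A] [IsNoetherianRing A] [TopologicalSpace A]
    [CharP (ResidueField A) 7] [Finite (ResidueField A)] [IsAdicComplete (maximalIdeal A) A]
    (hA : IsAdic (maximalIdeal A)) {n : ℕ} (hn : n ≤ 5) (ρ : G ℚ →* GL (Fin n) A)
    (hρ : Continuous ρ) (hTame : Tame T ρ) (hres : ProjectivelyP 7 (residual ρ))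
    (hpts : OddPoints 7 n (UnipotentQ ρ) A) : (Set.range ρ).Finite := by
  have hf : Fact (Nat.Prime 7) := ⟨by norm_num⟩
  refine points (by norm_num) Helper84.T5.linkDataA Helper84.T5.discA hT ?_ hA (by omega) ρ hρ hTame
    hres (Or.inr ⟨by omega, Or.inl Helper84.T5.spreadA⟩) hpts
  intro r hr hd
  have h2 := (hT r hr).two_le
  rcases hT' r hr (by omega) with rfl | rfl | rfl | rfl
  · exact ⟨0, rfl⟩
  · exact ⟨1, rfl⟩
  · exact ⟨2, rfl⟩
  · exact ⟨3, rfl⟩

/-- `p = 7`, dimension at most `5`, coefficient rings of residue characteristic `7` with odd points, and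
sets of prime numbers whose members congruent to `1` modulo `7` are among `43, 71, 113, 127`. -/
theorem seven_flat (T : Finset ℕ) (hT : ∀ r ∈ T, r.Prime)
    (hT' : ∀ r ∈ T, r % 7 = 1 → r = 43 ∨ r = 71 ∨ r = 113 ∨ r = 127)
    (A : Type) [CommRing A] [IsLocalRing A] [IsNoetherianRing A] [TopologicalSpace A]
    [CharP (ResidueField A) 7] [Finite (ResidueField A)] [IsAdicComplete (maximalIdeal A) A]
    (hA : IsAdic (maximalIdeal A)) {n : ℕ} (hn : n ≤ 5) (ρ : G ℚ →* GL (Fin n) A)
    (hρ : Continuous ρ) (hTame : Tame T ρ) (hres : ProjectivelyP 7 (residual ρ))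
    (hpts : OddPoints 7 n (UnipotentQ ρ) A) : (Set.range ρ).Finite := by
  have hf : Fact (Nat.Prime 7) := ⟨by norm_num⟩
  refine points (by norm_num) Helper84.T5.linkDataC Helper84.T5.discC hT ?_ hA (by omega) ρ hρ hTame
    hres (Or.inr ⟨by omega, Or.inr (Helper84.T5.flatC hn)⟩) hpts
  intro r hr hd
  have h2 := (hT r hr).two_le
  rcases hT' r hr (by omega) with rfl | rfl | rfl | rfl
  · exact ⟨0, rfl⟩
  · exact ⟨1, rfl⟩
  · exact ⟨2, rfl⟩
  · exact ⟨3, rfl⟩

/-- `p = 5`, dimension at most `4`, coefficient rings of residue characteristic `5` with odd points, and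
sets of prime numbers whose members congruent to `1` modulo `5` are among `181, 101, 151, 251`. -/
theorem five (T : Finset ℕ) (hT : ∀ r ∈ T, r.Prime)
    (hT' : ∀ r ∈ T, r % 5 = 1 → r = 181 ∨ r = 101 ∨ r = 151 ∨ r = 251)
    (A : Type) [CommRing A] [IsLocalRing A] [IsNoetherianRing A] [TopologicalSpace A]
    [CharP (ResidueField A) 5] [Finite (ResidueField A)] [IsAdicComplete (maximalIdeal A) A]
    (hA : IsAdic (maximalIdeal A)) {n : ℕ} (hn : n ≤ 4) (ρ : G ℚ →* GL (Fin n) A)
    (hρ : Continuous ρ) (hTame : Tame T ρ) (hres : ProjectivelyP 5 (residual ρ))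
    (hpts : OddPoints 5 n (UnipotentQ ρ) A) : (Set.range ρ).Finite := by
  have hf : Fact (Nat.Prime 5) := ⟨by norm_num⟩
  refine points (by norm_num) Helper84.T5.linkDataB Helper84.T5.discB hT ?_ hA (by omega) ρ hρ hTame
    hres (Or.inr ⟨by omega, Or.inl Helper84.T5.spreadB⟩) hpts
  intro r hr hd
  have h2 := (hT r hr).two_le
  rcases hT' r hr (by omega) with rfl | rfl | rfl | rfl
  · exact ⟨0, rfl⟩
  · exact ⟨1, rfl⟩
  · exact ⟨2, rfl⟩
  · exact ⟨3, rfl⟩

/-- `p = 5`, dimension at most `4`, coefficient rings of residue characteristic `5` with odd points, and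
sets of prime numbers whose members congruent to `1` modulo `5` are among `11, 41, 61, 71`. -/
theorem five_flat (T : Finset ℕ) (hT : ∀ r ∈ T, r.Prime)
    (hT' : ∀ r ∈ T, r % 5 = 1 → r = 11 ∨ r = 41 ∨ r = 61 ∨ r = 71)
    (A : Type) [CommRing A] [IsLocalRing A] [IsNoetherianRing A] [TopologicalSpace A]
    [CharP (ResidueField A) 5] [Finite (ResidueField A)] [IsAdicComplete (maximalIdeal A) A]
    (hA : IsAdic (maximalIdeal A)) {n : ℕ} (hn : n ≤ 4) (ρ : G ℚ →* GL (Fin n) A)
    (hρ : Continuous ρ) (hTame : Tame T ρ) (hres : ProjectivelyP 5 (residual ρ))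
    (hpts : OddPoints 5 n (UnipotentQ ρ) A) : (Set.range ρ).Finite := by
  have hf : Fact (Nat.Prime 5) := ⟨by norm_num⟩
  refine points (by norm_num) Helper84.T5.linkDataD Helper84.T5.discD hT ?_ hA (by omega) ρ hρ hTame
    hres (Or.inr ⟨by omega, Or.inr (Helper84.T5.flatD hn)⟩) hpts
  intro r hr hd
  have h2 := (hT r hr).two_le
  rcases hT' r hr (by omega) with rfl | rfl | rfl | rfl
  · exact ⟨0, rfl⟩
  · exact ⟨1, rfl⟩
  · exact ⟨2, rfl⟩
  · exact ⟨3, rfl⟩

/-- Characteristic `5`, dimension at most `5`, coefficient rings with odd points, and sets of prime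
numbers whose members congruent to `1` modulo `5` are among `11, 41, 61, 71`. -/
theorem five_char (T : Finset ℕ) (hT : ∀ r ∈ T, r.Prime)
    (hT' : ∀ r ∈ T, r % 5 = 1 → r = 11 ∨ r = 41 ∨ r = 61 ∨ r = 71)
    (A : Type) [CommRing A] [IsLocalRing A] [IsNoetherianRing A] [TopologicalSpace A]
    [CharP A 5] [CharP (ResidueField A) 5] [Finite (ResidueField A)]
    [IsAdicComplete (maximalIdeal A) A]
    (hA : IsAdic (maximalIdeal A)) {n : ℕ} (hn : n ≤ 5) (ρ : G ℚ →* GL (Fin n) A)
    (hρ : Continuous ρ) (hTame : Tame T ρ) (hres : ProjectivelyP 5 (residual ρ))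
    (hpts : OddPoints 5 n (UnipotentQ ρ) A) : (Set.range ρ).Finite := by
  have hf : Fact (Nat.Prime 5) := ⟨by norm_num⟩
  refine points (by norm_num) Helper84.T5.linkDataD Helper84.T5.discD hT ?_ hA (by omega) ρ hρ hTame
    hres (Or.inl (CharP.cast_eq_zero A 5)) hpts
  intro r hr hd
  have h2 := (hT r hr).two_le
  rcases hT' r hr (by omega) with rfl | rfl | rfl | rfl
  · exact ⟨0, rfl⟩
  · exact ⟨1, rfl⟩
  · exact ⟨2, rfl⟩
  · exact ⟨3, rfl⟩

/-- Characteristic `3`, dimension at most `5`, coefficient rings with odd points, and sets of prime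
numbers whose members congruent to `1` modulo `3` are among `7, 13, 31, 61`. -/
theorem three_char (T : Finset ℕ) (hT : ∀ r ∈ T, r.Prime)
    (hT' : ∀ r ∈ T, r % 3 = 1 → r = 7 ∨ r = 13 ∨ r = 31 ∨ r = 61)
    (A : Type) [CommRing A] [IsLocalRing A] [IsNoetherianRing A] [TopologicalSpace A]
    [CharP A 3] [CharP (ResidueField A) 3] [Finite (ResidueField A)]
    [IsAdicComplete (maximalIdeal A) A]
    (hA : IsAdic (maximalIdeal A)) {n : ℕ} (hn : n ≤ 5) (ρ : G ℚ →* GL (Fin n) A)
    (hρ : Continuous ρ) (hTame : Tame T ρ) (hres : ProjectivelyP 3 (residual ρ))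
    (hpts : OddPoints 3 n (UnipotentQ ρ) A) : (Set.range ρ).Finite := by
  have hf : Fact (Nat.Prime 3) := ⟨by norm_num⟩
  refine points (by norm_num) Helper84.T5.linkDataE Helper84.T5.discE hT ?_ hA (by omega) ρ hρ hTame
    hres (Or.inl (CharP.cast_eq_zero A 3)) hpts
  intro r hr hd
  have h2 := (hT r hr).two_le
  rcases hT' r hr (by omega) with rfl | rfl | rfl | rfl
  · exact ⟨0, rfl⟩
  · exact ⟨1, rfl⟩
  · exact ⟨2, rfl⟩
  · exact ⟨3, rfl⟩

/-- The residue field of the `7`-adic integers. -/
private theorem card_seven [Fact (Nat.Prime 7)] : Nat.card (ResidueField ℤ_[7]) = 7 ^ 1 := by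
  rw [Nat.card_congr (PadicInt.residueField (p := 7)).toEquiv, Nat.card_zmod, pow_one]

private theorem finite_seven [Fact (Nat.Prime 7)] : Finite (ResidueField ℤ_[7]) := by
  apply Nat.finite_of_card_ne_zero
  rw [card_seven]
  norm_num

private theorem char_seven [Fact (Nat.Prime 7)] : CharP (ResidueField ℤ_[7]) 7 :=
  charP_of_injective_ringHom (f := (PadicInt.residueField (p := 7)).symm.toRingHom)
    (PadicInt.residueField (p := 7)).symm.injective 7

private theorem small_seven [Fact (Nat.Prime 7)] {n : ℕ} (hn : n ≤ 5) (u : Prop) :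
    ((7 : ℕ) : ℤ_[7]) = 0 ∨ u ∨
      ∃ e, ((7 : ℕ) : ℤ_[7]) ∉ maximalIdeal ℤ_[7] ^ (e + 1) ∧ e * n + 1 < 7 := by
  refine Or.inr (Or.inr ⟨1, ?_, by omega⟩)
  intro h
  have h1 : ((7 : ℕ) : ℤ_[7]) ∈ Ideal.span {((7 : ℕ) : ℤ_[7]) ^ 2} := by
    rwa [PadicInt.maximalIdeal_eq_span_p, Ideal.span_singleton_pow] at h
  rw [← PadicInt.norm_le_pow_iff_mem_span_pow, PadicInt.norm_p] at h1
  norm_num at h1

/-- The ring of `7`-adic integers. -/
theorem padic_seven [Fact (Nat.Prime 7)] (T : Finset ℕ) (hT : ∀ r ∈ T, r.Prime)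
    (hT' : (∀ r ∈ T, r % 7 = 1 → r = 29 ∨ r = 197 ∨ r = 491 ∨ r = 883) ∨
      (∀ r ∈ T, r % 7 = 1 → r = 43 ∨ r = 71 ∨ r = 113 ∨ r = 127)) {n : ℕ} (hn : n ≤ 5)
    (ρ : G ℚ →* GL (Fin n) ℤ_[7]) (hρ : Continuous ρ) (hTame : Tame T ρ)
    (hres : ProjectivelyP 7 (residual ρ)) : (Set.range ρ).Finite := by
  have hfin := finite_seven
  have hchar := char_seven
  have hpts := oddPoints_dvr ℤ_[7] (f := 1) (by decide) card_seven (small_seven hn (UnipotentQ ρ))
  rcases hT' with hT' | hT'
  · exact seven T hT hT' ℤ_[7] (Helper27.TFM.isAdic_padic 7) hn ρ hρ hTame hres hpts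
  · exact seven_flat T hT hT' ℤ_[7] (Helper27.TFM.isAdic_padic 7) hn ρ hρ hTame hres hpts

/-- The rings of power series over the `7`-adic integers. -/
theorem family_seven [Fact (Nat.Prime 7)] (T : Finset ℕ) (hT : ∀ r ∈ T, r.Prime)
    (hT' : (∀ r ∈ T, r % 7 = 1 → r = 29 ∨ r = 197 ∨ r = 491 ∨ r = 883) ∨
      (∀ r ∈ T, r % 7 = 1 → r = 43 ∨ r = 71 ∨ r = 113 ∨ r = 127)) {n : ℕ} (hn : n ≤ 5) (d : ℕ)
    [TopologicalSpace (MvPowerSeries (Fin d) ℤ_[7])]
    (hA : IsAdic (maximalIdeal (MvPowerSeries (Fin d) ℤ_[7])))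
    (ρ : G ℚ →* GL (Fin n) (MvPowerSeries (Fin d) ℤ_[7])) (hρ : Continuous ρ) (hTame : Tame T ρ)
    (hres : ProjectivelyP 7 (residual ρ)) : (Set.range ρ).Finite := by
  have hfin := finite_seven
  have hchar := char_seven
  have h1 := Helper84.T5.isAdicComplete_power ℤ_[7] d
  have h2 := Helper84.T5.finite_residue_power ℤ_[7] d
  have h3 := Helper84.T5.charP_residue_power ℤ_[7] 7 d
  have hpts := oddPoints_power ℤ_[7] (f := 1) (by decide) card_seven
    (small_seven hn (UnipotentQ ρ)) d
  rcases hT' with hT' | hT'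
  · exact seven T hT hT' _ hA hn ρ hρ hTame hres hpts
  · exact seven_flat T hT hT' _ hA hn ρ hρ hTame hres hpts

end Pool.Agent.Results.MP_924d78_nt.DimensionFive
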