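import Pool.Agent.Helper87.SSP.Final

/-!
# Subset sums in groups with a nilpotent-by-abelian subgroup

Let `G` be a group with finite generating family `s` whose word problem is in P, and let `H` be a
finitely generated subgroup of `G` whose commutator subgroup is nilpotent and which is not
virtually nilpotent. Then the subset sum problem of `G` is NP-complete.
-/

open Pool.Agent.Helper87.SSP Pool.Agent.Helper87.NP

theorem Pool.Agent.Results.MP_9292e0_lc.NilpotentCommutator.result
    {G : Type*} [Group G] {g : ℕ} (s : Fin g → G)
    (hs : Subgroup.closure (Set.range s) = ⊤) (hWP : InP (WP s))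
    (H : Subgroup G) (hfg : H.FG) (hnil : Group.IsNilpotent (commutator H))
    (hH : ¬ VirtNilp H) : IsNPComplete (SSP s) :=
  main s hs hWP H hfg hnil hH
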