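import Pool.Agent.Helper87.SSP2.NonUni

/-!
# Subset sums in groups with a solvable subgroup that is not virtually nilpotent

Let `G` be a group with finite generating family `s` and let `H` be a finitely generated solvable
subgroup of `G` that is not virtually nilpotent. Then every language in NP reduces to the subset
sum problem of `G` by a polynomial-time many-one reduction with polynomially bounded advice.
-/

open Pool.Agent.Helper87.SSP Pool.Agent.Helper87.NP Pool.Agent.Helper87.SSP2

theorem Pool.Agent.Results.MP_9292e0_lc.NonuniformHardness.result
    {G : Type*} [Group G] {g : ℕ} (s : Fin g → G)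
    (hs : Subgroup.closure (Set.range s) = ⊤) (H : Subgroup G) (hfg : H.FG)
    (hsol : Group.IsSolvable H) (hH : ¬ VirtNilp H) (L : Set (List Bool)) (hL : InNP L) :
    ReducesAdv L (SSP s) :=
  (Pool.Agent.Helper87.SSP2.main s hs H hfg hsol hH).2 L hL
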